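import Pool.Agent.H164.LS.Three
import Pool.Agent.V11001.KM.NatSet

/-! Thin sets of integers `S k` with exponents tending to `s`: the integers near the powers of almost every number, and
near the numbers `n ^ α` for almost every `α`. -/

set_option autoImplicit false

open Finset Filter Topology MeasureTheory

namespace Pool.Agent.Helper203.NP

open scoped ENNReal NNReal
open Pool.Agent.V11001.KM

lemma null_of_dim {E : Set ℝ} {x : ℝ} (h : dimH E ≤ ENNReal.ofReal x) (hx : x < 1) : volume E = 0 := by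
  rw [← hausdorffMeasure_real]
  refine hausdorffMeasure_of_dimH_lt (d := 1) (h.trans_lt ?_)
  have g2 := (ENNReal.ofReal_lt_one).2 hx
  simpa using g2

/-- the integers near the powers of a number outside a small set, countably many amplitudes -/
theorem powers_set (S : Set ℕ) {s θ : ℝ} {ν : ℕ → ℝ} (hν : Tendsto (fun n : ℕ => ν n / Real.log n) atTop atTop)
    (B : Set ℝ) (hB : B.Countable) (hs : 0 ≤ s) (hθ1 : θ < 1)
    (hS : ∀ ε : ℝ, 0 < ε → ∃ C : ℝ, ∀ X : ℝ, 1 ≤ X →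
      {t : ℕ | t ∈ S ∧ (t : ℝ) ≤ X}.Finite ∧ ({t : ℕ | t ∈ S ∧ (t : ℝ) ≤ X}.ncard : ℝ) ≤ C * X ^ (s + ε)) :
    ∃ E : Set ℝ, dimH E ≤ ENNReal.ofReal (s / (1 - θ)) ∧ ∀ z : ℝ, 1 < z → z ∉ E → ∀ β ∈ B, 0 < β →
      ∃ n₀ : ℕ, ∀ n : ℕ, n₀ ≤ n → ∀ t : ℕ, |(t : ℝ) - β * z ^ ν n| ≤ z ^ (θ * ν n) → t ∉ S := by
  have hcB : Countable B := hB.to_subtype
  have hall : ∀ q : {β : B // 0 < (β : ℝ)}, ∃ E : Set ℝ, dimH E ≤ ENNReal.ofReal (s / (1 - θ)) ∧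
      ∀ x : ℝ, 1 < x → x ∉ E → ∃ n0 : ℕ, ∀ n : ℕ, n0 ≤ n → ∀ t ∈ S,
        x ^ (θ * ν n) < |((t : ℕ) : ℝ) - ((q : B) : ℝ) * x ^ ν n| := fun q =>
    powers S (fun t : ℕ => (t : ℝ)) hν q.2 hs hθ1 hS
  choose E hE1 hE2 using hall
  refine ⟨⋃ q, E q, ?_, fun x hx hxE β hβ hβ0 => ?_⟩
  · rw [dimH_iUnion]
    exact iSup_le hE1
  · have hxE' : x ∉ E ⟨⟨β, hβ⟩, hβ0⟩ := fun g => hxE (Set.mem_iUnion.2 ⟨_, g⟩)
    obtain ⟨n0, hn0⟩ := hE2 ⟨⟨β, hβ⟩, hβ0⟩ x hx hxE'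
    exact ⟨n0, fun n hn t ht hmem => absurd ht (not_le.2 (hn0 n hn t hmem))⟩

/-- almost every number -/
theorem ae_powers (S : ℕ → Set ℕ) {s : ℝ} (hs : 0 ≤ s) {ν : ℕ → ℝ}
    (hν : Tendsto (fun n : ℕ => ν n / Real.log n) atTop atTop) (B : Set ℝ) (hB : B.Countable)
    (hS : ∀ k : ℕ, ∀ ε : ℝ, 0 < ε → ∃ C : ℝ, ∀ X : ℝ, 1 ≤ X →
      {t : ℕ | t ∈ S k ∧ (t : ℝ) ≤ X}.Finite ∧
      ({t : ℕ | t ∈ S k ∧ (t : ℝ) ≤ X}.ncard : ℝ) ≤ C * X ^ (s + 1 / ((k : ℝ) + 1) + ε)) :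
    ∀ᵐ z : ℝ, 1 < z → ∀ β ∈ B, 0 < β → ∀ θ : ℝ, θ < 1 - s →
      ∃ k n₀ : ℕ, ∀ n : ℕ, n₀ ≤ n → ∀ t : ℕ, |(t : ℝ) - β * z ^ ν n| ≤ z ^ (θ * ν n) → t ∉ S k := by
  set th : ℕ → ℝ := fun k => 1 - s - 2 / ((k : ℝ) + 1) with hth
  have hp : ∀ k : ℕ, (0 : ℝ) < 1 / ((k : ℝ) + 1) := fun k => by positivity
  have h2p : ∀ k : ℕ, 2 / ((k : ℝ) + 1) = 2 * (1 / ((k : ℝ) + 1)) := fun k => by ring
  have hth1 : ∀ k, th k < 1 := fun k => by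
    have := hp k
    simp only [hth, h2p]
    linarith
  have hall := fun k : ℕ => powers_set (S k) hν B hB (s := s + 1 / ((k : ℝ) + 1)) (by have := hp k; linarith)
    (hth1 k) (hS k)
  choose E hE1 hE2 using hall
  have hnull : ∀ k, volume (E k) = 0 := by
    intro k
    refine null_of_dim (hE1 k) ?_
    have := hp k
    simp only [hth, h2p]
    rw [div_lt_one (by linarith)]
    linarith
  have hae : ∀ᵐ x : ℝ, ∀ k, x ∉ E k := by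
    rw [ae_all_iff]
    intro k
    exact compl_mem_ae_iff.2 (hnull k)
  obtain ⟨n1, hn1⟩ := ((tendsto_lam hν).eventually_ge_atTop 0).exists_forall_of_atTop
  filter_upwards [hae] with x hx hx1 β hβ hβ0 θ hθ
  obtain ⟨k, hk⟩ := exists_nat_one_div_lt (show 0 < (1 - s - θ) / 2 by linarith)
  obtain ⟨n0, hn0⟩ := hE2 k x hx1 (hx k) β hβ hβ0
  refine ⟨k, max n0 n1, fun n hn t ht => hn0 n ((le_max_left _ _).trans hn) t (ht.trans ?_)⟩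
  have hl := hn1 n ((le_max_right _ _).trans hn)
  apply Real.rpow_le_rpow_of_exponent_le hx1.le
  apply mul_le_mul_of_nonneg_right _ hl
  simp only [hth, h2p]
  linarith

/-- the integers near `n ^ α` for almost every `α` -/
theorem ae_exps (S : ℕ → Set ℕ) {s : ℝ} (hs : 0 ≤ s)
    (hS : ∀ k : ℕ, ∀ ε : ℝ, 0 < ε → ∃ C : ℝ, ∀ X : ℝ, 1 ≤ X →
      {t : ℕ | t ∈ S k ∧ (t : ℝ) ≤ X}.Finite ∧
      ({t : ℕ | t ∈ S k ∧ (t : ℝ) ≤ X}.ncard : ℝ) ≤ C * X ^ (s + 1 / ((k : ℝ) + 1) + ε)) :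
    ∀ᵐ α : ℝ, 0 < α → ∀ θ : ℝ, 0 ≤ θ → θ < 1 - s - 1 / α →
      ∃ k n₀ : ℕ, ∀ n : ℕ, n₀ ≤ n → ∀ t : ℕ, |(t : ℝ) - (n : ℝ) ^ α| ≤ ((n : ℝ) ^ α) ^ θ → t ∉ S k := by
  have hp : ∀ k : ℕ, (0 : ℝ) < 1 / ((k : ℝ) + 1) := fun k => by positivity
  have hall := fun (q : ℕ × ℚ) (h0 : 0 ≤ (q.2 : ℝ)) (h1 : (q.2 : ℝ) < 1) =>
    (Pool.Agent.H164.LS.three (S q.1) (s := s + 1 / ((q.1 : ℝ) + 1)) (θ := (q.2 : ℝ))
      (by have := hp q.1; linarith) h0 h1 (fun ε hε => by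
        obtain ⟨C, hC⟩ := hS q.1 ε hε
        exact ⟨C, fun X hX => (hC X hX).2⟩)).2.2
  choose! E hE1 hE2 using hall
  have hae : ∀ᵐ x : ℝ, ∀ q : (ℕ × ℚ) × ℚ, 0 ≤ (q.1.2 : ℝ) → (q.1.2 : ℝ) < 1 → 0 < (q.2 : ℝ) →
      (s + 1 / ((q.1.1 : ℝ) + 1) + 1 / (q.2 : ℝ)) / (1 - (q.1.2 : ℝ)) < 1 →
      x ∉ E q.1 ∩ Set.Ici (q.2 : ℝ) := by
    rw [ae_all_iff]
    intro q
    by_cases h : 0 ≤ (q.1.2 : ℝ) ∧ (q.1.2 : ℝ) < 1 ∧ 0 < (q.2 : ℝ) ∧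
      (s + 1 / ((q.1.1 : ℝ) + 1) + 1 / (q.2 : ℝ)) / (1 - (q.1.2 : ℝ)) < 1
    · have h1 : volume (E q.1 ∩ Set.Ici (q.2 : ℝ)) = 0 :=
        null_of_dim (hE1 q.1 h.1 h.2.1 _ h.2.2.1) h.2.2.2
      filter_upwards [compl_mem_ae_iff.2 h1] with x hx _ _ _ _
      exact hx
    · filter_upwards with x h1 h2 h3 h4
      exact absurd ⟨h1, h2, h3, h4⟩ h
  filter_upwards [hae] with α hα hα0 θ hθ0 hθ
  -- the choice of the parameters
  have hα1 : 0 < 1 / α := by positivity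
  set g : ℝ := 1 - s - 1 / α - θ with hg
  have hg0 : 0 < g := by
    simp only [hg]
    linarith
  obtain ⟨k, hk⟩ := exists_nat_one_div_lt (show 0 < g / 4 by linarith)
  obtain ⟨θ', h1, h2⟩ := exists_rat_btwn (show θ < θ + g / 4 by linarith)
  have hcont : Tendsto (fun a : ℝ => 1 / a) (𝓝[<] α) (𝓝 (1 / α)) := by
    have : ContinuousAt (fun a : ℝ => 1 / a) α := by
      apply ContinuousAt.div continuousAt_const continuousAt_id hα0.ne'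
    exact this.tendsto.mono_left nhdsWithin_le_nhds
  have hev := hcont.eventually (gt_mem_nhds (show 1 / α < 1 / α + g / 4 by linarith))
  obtain ⟨l, hl, hl'⟩ := (mem_nhdsLT_iff_exists_Ioo_subset' hα0).1 (hev.and (Ioo_mem_nhdsLT hα0))
  obtain ⟨a, ha1, ha2⟩ := exists_rat_btwn (show max l 0 < α from max_lt hl hα0)
  have ha0 : 0 < (a : ℝ) := (le_max_right _ _).trans_lt ha1
  have ha3 : 1 / (a : ℝ) < 1 / α + g / 4 := (hl' ⟨(le_max_left _ _).trans_lt ha1, ha2⟩).1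
  have hθ'0 : 0 ≤ (θ' : ℝ) := hθ0.trans h1.le
  have hkp := hp k
  have hθ'1 : (θ' : ℝ) < 1 := by
    have : θ = 1 - s - 1 / α - g := by simp only [hg]; ring
    linarith
  have hlt : (s + 1 / ((k : ℝ) + 1) + 1 / (a : ℝ)) / (1 - (θ' : ℝ)) < 1 := by
    rw [div_lt_one (by linarith)]
    have : θ = 1 - s - 1 / α - g := by simp only [hg]; ring
    linarith
  have hnot : α ∉ E (k, θ') := fun hmem =>
    hα ((k, θ'), a) hθ'0 hθ'1 ha0 hlt ⟨hmem, ha2.le⟩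
  obtain ⟨n₀, hn₀⟩ := hE2 (k, θ') hθ'0 hθ'1 α hα0 hnot
  refine ⟨k, max n₀ 1, fun n hn t ht => hn₀ n ((le_max_left _ _).trans hn) t (ht.trans ?_)⟩
  have hn1 : (1 : ℝ) ≤ n := by exact_mod_cast (le_max_right _ _).trans hn
  exact Real.rpow_le_rpow_of_exponent_le (Real.one_le_rpow hn1 hα0.le) h1.le

/-- the real numbers near `n ^ α` whose integer part is not exceptional -/
theorem real_exps (S : Set ℕ) {s θ : ℝ} (hs : 0 ≤ s) (hθ0 : 0 ≤ θ) (hθ1 : θ < 1)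
    (hS : ∀ ε : ℝ, 0 < ε → ∃ C : ℝ, ∀ X : ℝ, 1 ≤ X →
      ({t : ℕ | t ∈ S ∧ (t : ℝ) ≤ X}.ncard : ℝ) ≤ C * X ^ (s + ε)) :
    ∃ E : Set ℝ, (∀ a : ℝ, 0 < a → dimH (E ∩ Set.Ici a) ≤ ENNReal.ofReal ((s + 1 / a) / (1 - θ))) ∧
      ∀ α : ℝ, 0 < α → α ∉ E → ∃ n₀ : ℕ, ∀ n : ℕ, n₀ ≤ n → ∀ y : ℝ, 0 ≤ y →
        |y - (n : ℝ) ^ α| ≤ ((n : ℝ) ^ α) ^ θ → ⌊y⌋₊ ∉ S := by
  have h1θ : 0 < 1 - θ := by linarith
  set θ' : ℕ → ℝ := fun k => θ + (1 - θ) * (1 / ((k : ℝ) + 2)) with hθ'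
  have hk1 : ∀ k : ℕ, 1 / ((k : ℝ) + 2) < 1 := by
    intro k
    rw [div_lt_one (by positivity)]
    have : (0 : ℝ) ≤ k := Nat.cast_nonneg k
    linarith
  have hθ'1 : ∀ k, θ' k < 1 := by
    intro k
    have h2 := mul_lt_mul_of_pos_left (hk1 k) h1θ
    have h3 : θ' k = θ + (1 - θ) * (1 / ((k : ℝ) + 2)) := rfl
    linarith
  have hθ'0 : ∀ k, θ < θ' k := by
    intro k
    have h2 : 0 < (1 - θ) * (1 / ((k : ℝ) + 2)) := by positivity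
    have h3 : θ' k = θ + (1 - θ) * (1 / ((k : ℝ) + 2)) := rfl
    linarith
  have hall := fun k : ℕ =>
    (Pool.Agent.H164.LS.three S hs (hθ0.trans (hθ'0 k).le) (hθ'1 k) hS).2.2
  choose E hE1 hE2 using hall
  refine ⟨⋂ k, E k, fun a ha => ?_, fun α hα hαE => ?_⟩
  · have h1 : ∀ k : ℕ, dimH ((⋂ k, E k) ∩ Set.Ici a) ≤ ENNReal.ofReal ((s + 1 / a) / (1 - θ' k)) := fun k =>
      (dimH_mono (Set.inter_subset_inter_left _ (Set.iInter_subset _ k))).trans (hE1 k a ha)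
    have h2 : Tendsto (fun k : ℕ => ENNReal.ofReal ((s + 1 / a) / (1 - θ' k))) atTop
        (𝓝 (ENNReal.ofReal ((s + 1 / a) / (1 - (θ + (1 - θ) * 0))))) := by
      apply ENNReal.tendsto_ofReal
      have h3 : Tendsto (fun k : ℕ => 1 / ((k : ℝ) + 2)) atTop (𝓝 0) := by
        have h4 := (tendsto_one_div_add_atTop_nhds_zero_nat (𝕜 := ℝ)).comp (tendsto_add_atTop_nat 1)
        refine h4.congr (fun k => ?_)
        simp only [Function.comp_apply]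
        push_cast
        ring
      refine Tendsto.div tendsto_const_nhds (tendsto_const_nhds.sub ((h3.const_mul (1 - θ)).const_add θ)) ?_
      rw [mul_zero, add_zero]
      exact h1θ.ne'
    rw [mul_zero, add_zero] at h2
    exact ge_of_tendsto' h2 h1
  · rw [Set.mem_iInter] at hαE
    push Not at hαE
    obtain ⟨k, hk⟩ := hαE
    obtain ⟨n0, hn0⟩ := hE2 k α hα hk
    have hlim : Tendsto (fun n : ℕ => ((n : ℝ) ^ α) ^ (θ' k - θ)) atTop atTop :=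
      (tendsto_rpow_atTop (by linarith [hθ'0 k] : 0 < θ' k - θ)).comp
        ((tendsto_rpow_atTop hα).comp tendsto_natCast_atTop_atTop)
    obtain ⟨n1, hn1⟩ := (hlim.eventually_ge_atTop 2).exists_forall_of_atTop
    refine ⟨max n0 (max n1 1), fun n hn y hy0 hy hcon => ?_⟩
    have g1 := hn1 n ((le_max_left _ _).trans ((le_max_right _ _).trans hn))
    have g2 : (1 : ℝ) ≤ n := by exact_mod_cast (le_max_right _ _).trans ((le_max_right _ _).trans hn)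
    have h4 := hn0 n ((le_max_left _ _).trans hn) ⌊y⌋₊
    have hp : 1 ≤ (n : ℝ) ^ α := Real.one_le_rpow g2 hα.le
    have hp0 : 0 < (n : ℝ) ^ α := by linarith
    have h5 : 1 ≤ ((n : ℝ) ^ α) ^ θ := Real.one_le_rpow hp hθ0
    have h6 : ((n : ℝ) ^ α) ^ θ' k = ((n : ℝ) ^ α) ^ θ * ((n : ℝ) ^ α) ^ (θ' k - θ) := by
      rw [← Real.rpow_add hp0]
      congr 1
      ring
    have h7 : ((n : ℝ) ^ α) ^ θ * 2 ≤ ((n : ℝ) ^ α) ^ θ' k := by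
      rw [h6]
      exact mul_le_mul_of_nonneg_left g1 (by linarith)
    have h8 : |((⌊y⌋₊ : ℕ) : ℝ) - (n : ℝ) ^ α| ≤ ((n : ℝ) ^ α) ^ θ + 1 := by
      have h9 := Nat.floor_le hy0
      have h10 := Nat.lt_floor_add_one y
      obtain ⟨h11, h12⟩ := abs_le.1 hy
      rw [abs_le]
      constructor <;> linarith
    exact h4 (by linarith) hcon

end Pool.Agent.Helper203.NP
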